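import Pool.Agent.Y322.IV.Stm2

set_option autoImplicit false

open Set MeasureTheory Function
open scoped unitInterval ContDiff

namespace Pool.Agent.Y165.IV

open Pool.Agent.Y322.IV

/-- resampling one coordinate preserves the product measure -/
theorem map_update (j : ℕ) :
    ((Measure.infinitePi (fun _ : ℕ => (volume : Measure I))).prod (volume : Measure I)).map
      (fun p : (ℕ → I) × I => update p.1 j p.2) =
    Measure.infinitePi (fun _ : ℕ => (volume : Measure I)) := by
  apply Measure.eq_infinitePi
  intro s t ht
  have hm : Measurable (fun p : (ℕ → I) × I => update p.1 j p.2) := measurable_update'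
  rw [Measure.map_apply hm (MeasurableSet.pi s.countable_toSet (fun i hi => ht i))]
  have e : (fun p : (ℕ → I) × I => update p.1 j p.2) ⁻¹' (Set.pi (s : Set ℕ) t) =
      (Set.pi ((s.erase j : Finset ℕ) : Set ℕ) t) ×ˢ (if j ∈ s then t j else univ) := by
    ext ⟨x, r⟩
    simp only [mem_preimage, Set.mem_pi, mem_prod, Finset.coe_erase, mem_sdiff,
      Finset.mem_coe, mem_singleton_iff]
    constructor
    · intro h
      refine ⟨fun i hi => ?_, ?_⟩
      · have := h i hi.1
        rwa [update_of_ne hi.2] at this
      · split_ifs with hj
        · have := h j hj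
          rwa [update_self] at this
        · trivial
    · rintro ⟨h1, h2⟩ i hi
      by_cases hij : i = j
      · subst hij
        rw [if_pos hi] at h2
        rwa [update_self]
      · rw [update_of_ne hij]
        exact h1 i ⟨hi, hij⟩
  rw [e, Measure.prod_prod, Measure.infinitePi_pi _ (fun i hi => ht i)]
  by_cases hj : j ∈ s
  · rw [if_pos hj, mul_comm, Finset.mul_prod_erase s (fun i => volume (t i)) hj]
  · rw [if_neg hj, Finset.erase_eq_of_notMem hj, measure_univ, mul_one]

theorem fub : S_FUB := by
  intro X _ ν _ j C hC hinj
  have h1 : ((Measure.infinitePi (fun _ : ℕ => (volume : Measure I))).prod ν) C = 0 := by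
    rw [Measure.prod_apply_symm hC]
    rw [lintegral_eq_zero_iff (measurable_measure_prodMk_right hC)]
    refine Filter.Eventually.of_forall fun x => ?_
    simp only [Pi.zero_apply]
    rw [← map_update j]
    have hm : Measurable (fun p : (ℕ → I) × I => update p.1 j p.2) := measurable_update'
    have hD : MeasurableSet ((fun t => (t, x)) ⁻¹' C) := measurable_prodMk_right hC
    rw [Measure.map_apply hm hD, Measure.measure_prod_null (hm hD)]
    refine Filter.Eventually.of_forall fun t => ?_
    simp only [Pi.zero_apply]
    apply Set.Subsingleton.measure_zero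
    intro r hr r' hr'
    exact hinj t r r' x hr hr'
  exact Measure.measure_ae_null_of_prod_null h1

end Pool.Agent.Y165.IV
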